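import Mathlib

/-!
# Fractional total domatic number of claw-free graphs

For every connected claw-free graph `G` of order `n` with minimum degree at least two we prove
`FTD G ≥ 2 n / (n + 2)`; in particular `FTD G ≥ 2 - o(1)`, which is the positive answer to Q1.

Method: in such a graph every set `A` of vertices (with one or two vertices forbidden) satisfies
`|N(A)| ≥ |A| + 1`; by Lovász's theorem (proved here) the hypergraph of the open neighbourhoods,
with one or two neighbourhoods removed, is 2-colourable.  Moving the removed vertices around and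
averaging gives the family of total dominating sets.
-/

namespace Pool.Agent.Results.MP_7cc102_co.AsymptoticallyTwo

open Finset Classical

/-- `G` has no induced subgraph `K_{1,3}`. -/
def ClawFree {V : Type} (G : SimpleGraph V) : Prop :=
  ¬ ∃ c x y z : V, G.Adj c x ∧ G.Adj c y ∧ G.Adj c z ∧ x ≠ y ∧ x ≠ z ∧ y ≠ z ∧
    ¬ G.Adj x y ∧ ¬ G.Adj x z ∧ ¬ G.Adj y z

/-- Every vertex of `G` has a neighbour in `S`. -/
def TotalDominating {V : Type} (G : SimpleGraph V) (S : Finset V) : Prop :=
  ∀ v, ∃ u ∈ S, G.Adj v u

/-- `m(F)`: the largest number of members of the family that contain one common vertex. -/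
noncomputable def maxMult {V : Type} [Fintype V] {k : ℕ} (F : Fin k → Finset V) : ℕ :=
  univ.sup fun v => (univ.filter fun i => v ∈ F i).card

/-- The fractional total domatic number: supremum of `|F| / m(F)` over all nonempty finite
families `F` of total dominating sets. -/
noncomputable def FTD {V : Type} [Fintype V] (G : SimpleGraph V) : ℝ :=
  sSup {r : ℝ | ∃ (k : ℕ) (F : Fin k → Finset V), 0 < k ∧ (∀ i, TotalDominating G (F i)) ∧
    r = (k : ℝ) / (maxMult F : ℝ)}

section lovasz

variable {ι V : Type} [Fintype ι]

/-- The graph case: pairs. -/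
theorem pairs_colour (E : ι → Finset V) :
    ∀ (m : ℕ) (A : Finset ι), A.card = m → (∀ i ∈ A, (E i).card = 2) →
      (∀ B ⊆ A, B.Nonempty → B.card + 1 ≤ (B.biUnion E).card) →
      ∃ c : V → Bool, ∀ i ∈ A, ∃ x ∈ E i, ∃ y ∈ E i, c x ≠ c y := by
  intro m
  induction m with
  | zero =>
    intro A hA _ _
    rw [Finset.card_eq_zero] at hA
    subst hA
    exact ⟨fun _ => true, fun i hi => absurd hi (by simp)⟩
  | succ m ih =>
    intro A hA h2 hB
    have hne : A.Nonempty := by
      rw [← Finset.card_pos]; omega
    have hcard := hB A subset_rfl hne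
    -- a vertex of degree one
    have hdeg : ∃ x ∈ A.biUnion E, (A.filter fun i => x ∈ E i).card ≤ 1 := by
      by_contra hcon
      push Not at hcon
      have h1 : ∑ x ∈ A.biUnion E, (A.filter fun i => x ∈ E i).card = ∑ i ∈ A, (E i).card := by
        have := Finset.sum_card_bipartiteAbove_eq_sum_card_bipartiteBelow
          (s := A.biUnion E) (t := A) (fun x i => x ∈ E i)
        simp only [Finset.bipartiteAbove, Finset.bipartiteBelow] at this
        rw [this]
        apply Finset.sum_congr rfl
        intro i hi
        congr 1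
        ext x
        simp only [Finset.mem_filter, Finset.mem_biUnion]
        constructor
        · exact fun h => h.2
        · exact fun h => ⟨⟨i, hi, h⟩, h⟩
      have h3 : ∑ i ∈ A, (E i).card = 2 * A.card := by
        rw [Finset.sum_congr rfl h2]; simp [mul_comm]
      have h4 : 2 * (A.biUnion E).card ≤ ∑ x ∈ A.biUnion E, (A.filter fun i => x ∈ E i).card := by
        have : ∑ x ∈ A.biUnion E, 2 ≤ ∑ x ∈ A.biUnion E, (A.filter fun i => x ∈ E i).card :=
          Finset.sum_le_sum fun x hx => hcon x hx
        simpa [mul_comm] using this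
      omega
    obtain ⟨x, hx, hx1⟩ := hdeg
    obtain ⟨i, hiA, hxi⟩ := Finset.mem_biUnion.1 hx
    have huniq : ∀ j ∈ A, x ∈ E j → j = i := by
      intro j hj hxj
      have := Finset.card_le_one.1 hx1 j (by simp [hj, hxj]) i (by simp [hiA, hxi])
      exact this
    obtain ⟨c, hc⟩ := ih (A.erase i) (by rw [Finset.card_erase_of_mem hiA]; omega)
      (fun j hj => h2 j (Finset.mem_of_mem_erase hj))
      (fun B hBA hBn => hB B (hBA.trans (Finset.erase_subset _ _)) hBn)
    have hy : ∃ y ∈ E i, y ≠ x := by
      have h := h2 i hiA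
      have : 1 < (E i).card := by omega
      obtain ⟨y, hy, hyx⟩ := Finset.exists_mem_ne this x
      exact ⟨y, hy, hyx⟩
    obtain ⟨y, hy, hyx⟩ := hy
    refine ⟨Function.update c x (!(c y)), ?_⟩
    intro j hj
    by_cases hji : j = i
    · subst hji
      refine ⟨x, hxi, y, hy, ?_⟩
      rw [Function.update_self, Function.update_of_ne hyx]
      cases c y <;> simp
    · obtain ⟨p, hp, q, hq, hpq⟩ := hc j (Finset.mem_erase.2 ⟨hji, hj⟩)
      have hxj : x ∉ E j := fun h => hji (huniq j hj h)
      refine ⟨p, hp, q, hq, ?_⟩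
      have hpx : p ≠ x := by rintro rfl; exact hxj hp
      have hqx : q ≠ x := by rintro rfl; exact hxj hq
      rw [Function.update_of_ne hpx, Function.update_of_ne hqx]
      exact hpq

/-- Lovász: a hypergraph in which any `k ≥ 1` edges cover at least `k + 1` vertices is
2-colourable. -/
theorem lovasz : ∀ (m : ℕ) (E : ι → Finset V), ∑ i, (E i).card = m →
    (∀ B : Finset ι, B.Nonempty → B.card + 1 ≤ (B.biUnion E).card) →
    ∃ c : V → Bool, ∀ i, ∃ x ∈ E i, ∃ y ∈ E i, c x ≠ c y := by
  intro m
  induction m using Nat.strong_induction_on with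
  | _ m ih =>
    intro E hm hB
    have hge : ∀ i, 2 ≤ (E i).card := by
      intro i
      have := hB {i} (by simp)
      simpa using this
    by_cases hall : ∀ i, (E i).card = 2
    · obtain ⟨c, hc⟩ := pairs_colour E (Finset.univ : Finset ι).card Finset.univ rfl
        (fun i _ => hall i) (fun B _ hn => hB B hn)
      exact ⟨c, fun i => hc i (Finset.mem_univ i)⟩
    · push Not at hall
      obtain ⟨i, hi⟩ := hall
      have hi3 : 3 ≤ (E i).card := by
        have := hge i; omega
      obtain ⟨x, hx, y, hy, z, hz, hxy, hxz, hyz⟩ := Finset.two_lt_card.1 (by omega : 2 < (E i).card)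
      -- try to remove `w ∈ {x, y}`
      have key : ∀ w ∈ E i,
          (∀ B : Finset ι, B.Nonempty →
            B.card + 1 ≤ (B.biUnion (Function.update E i ((E i).erase w))).card) →
          ∃ c : V → Bool, ∀ i, ∃ x ∈ E i, ∃ y ∈ E i, c x ≠ c y := by
        intro w hw hcond
        have hlt : ∑ j, (Function.update E i ((E i).erase w) j).card < m := by
          rw [← hm]
          apply Finset.sum_lt_sum
          · intro j _
            by_cases hj : j = i
            · subst hj
              rw [Function.update_self]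
              exact Finset.card_le_card (Finset.erase_subset _ _)
            · rw [Function.update_of_ne hj]
          · refine ⟨i, Finset.mem_univ i, ?_⟩
            rw [Function.update_self, Finset.card_erase_of_mem hw]
            omega
        obtain ⟨c, hc⟩ := ih _ hlt _ rfl hcond
        refine ⟨c, fun j => ?_⟩
        obtain ⟨p, hp, q, hq, hpq⟩ := hc j
        have hsub : Function.update E i ((E i).erase w) j ⊆ E j := by
          by_cases hj : j = i
          · subst hj
            rw [Function.update_self]
            exact Finset.erase_subset _ _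
          · rw [Function.update_of_ne hj]
        exact ⟨p, hsub hp, q, hsub hq, hpq⟩
      by_cases hX : ∀ B : Finset ι, B.Nonempty →
            B.card + 1 ≤ (B.biUnion (Function.update E i ((E i).erase x))).card
      · exact key x hx hX
      by_cases hY : ∀ B : Finset ι, B.Nonempty →
            B.card + 1 ≤ (B.biUnion (Function.update E i ((E i).erase y))).card
      · exact key y hy hY
      exfalso
      push Not at hX hY
      -- structure of tight sets
      have tight : ∀ w, ∀ B : Finset ι, B.Nonempty →
          (B.biUnion (Function.update E i ((E i).erase w))).card < B.card + 1 →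
          i ∈ B := by
        intro w B hBn hlt
        by_contra hiB
        have : B.biUnion (Function.update E i ((E i).erase w)) = B.biUnion E := by
          apply Finset.biUnion_congr rfl
          intro j hj
          have hji : j ≠ i := by rintro rfl; exact hiB hj
          rw [Function.update_of_ne hji]
        rw [this] at hlt
        have := hB B hBn
        omega
      obtain ⟨B, hBn, hBc⟩ := hX
      obtain ⟨C, hCn, hCc⟩ := hY
      have hiB := tight x B hBn hBc
      have hiC := tight y C hCn hCc
      set X := B.biUnion (Function.update E i ((E i).erase x)) with hXdef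
      set Y := C.biUnion (Function.update E i ((E i).erase y)) with hYdef
      have hErx : (E i).erase x ⊆ X := by
        intro p hp
        exact Finset.mem_biUnion.2 ⟨i, hiB, by rw [Function.update_self]; exact hp⟩
      have hEry : (E i).erase y ⊆ Y := by
        intro p hp
        exact Finset.mem_biUnion.2 ⟨i, hiC, by rw [Function.update_self]; exact hp⟩
      have hEX : ∀ j ∈ B, j ≠ i → E j ⊆ X := by
        intro j hj hji p hp
        exact Finset.mem_biUnion.2 ⟨j, hj, by rw [Function.update_of_ne hji]; exact hp⟩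
      have hEY : ∀ j ∈ C, j ≠ i → E j ⊆ Y := by
        intro j hj hji p hp
        exact Finset.mem_biUnion.2 ⟨j, hj, by rw [Function.update_of_ne hji]; exact hp⟩
      have hunion : (B ∪ C).card + 1 ≤ (X ∪ Y).card := by
        refine (hB (B ∪ C) (hBn.mono Finset.subset_union_left)).trans (Finset.card_le_card ?_)
        intro p hp
        obtain ⟨j, hj, hpj⟩ := Finset.mem_biUnion.1 hp
        by_cases hji : j = i
        · subst hji
          by_cases hpx : p = x
          · exact Finset.mem_union_right _ (hEry (Finset.mem_erase.2 ⟨by rw [hpx]; exact hxy, hpj⟩))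
          · exact Finset.mem_union_left _ (hErx (Finset.mem_erase.2 ⟨hpx, hpj⟩))
        · rcases Finset.mem_union.1 hj with h | h
          · exact Finset.mem_union_left _ (hEX j h hji hpj)
          · exact Finset.mem_union_right _ (hEY j h hji hpj)
      have hinter : (B ∩ C).card ≤ (X ∩ Y).card := by
        by_cases hD : ((B ∩ C).erase i).Nonempty
        · have h1 := hB _ hD
          have h2 : (B ∩ C).card = ((B ∩ C).erase i).card + 1 := by
            rw [Finset.card_erase_of_mem (Finset.mem_inter.2 ⟨hiB, hiC⟩)]
            have : 0 < (B ∩ C).card := Finset.card_pos.2 ⟨i, Finset.mem_inter.2 ⟨hiB, hiC⟩⟩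
            omega
          rw [h2]
          refine h1.trans (Finset.card_le_card ?_)
          intro p hp
          obtain ⟨j, hj, hpj⟩ := Finset.mem_biUnion.1 hp
          obtain ⟨hji, hj2⟩ := Finset.mem_erase.1 hj
          obtain ⟨hjB, hjC⟩ := Finset.mem_inter.1 hj2
          exact Finset.mem_inter.2 ⟨hEX j hjB hji hpj, hEY j hjC hji hpj⟩
        · have h2 : (B ∩ C).card ≤ 1 := by
            rw [Finset.not_nonempty_iff_eq_empty] at hD
            have := Finset.card_erase_of_mem (Finset.mem_inter.2 ⟨hiB, hiC⟩)
            rw [hD] at this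
            simp at this
            omega
          refine h2.trans ?_
          rw [Nat.one_le_iff_ne_zero, Finset.card_ne_zero]
          exact ⟨z, Finset.mem_inter.2 ⟨hErx (Finset.mem_erase.2 ⟨Ne.symm hxz, hz⟩),
            hEry (Finset.mem_erase.2 ⟨Ne.symm hyz, hz⟩)⟩⟩
      have e1 := Finset.card_union_add_card_inter B C
      have e2 := Finset.card_union_add_card_inter X Y
      omega

/-- Version for a finset of edges. -/
theorem lovasz' (W : Finset ι) (E : ι → Finset V)
    (hB : ∀ B ⊆ W, B.Nonempty → B.card + 1 ≤ (B.biUnion E).card) :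
    ∃ c : V → Bool, ∀ i ∈ W, ∃ x ∈ E i, ∃ y ∈ E i, c x ≠ c y := by
  obtain ⟨c, hc⟩ := lovasz (ι := W) _ (fun i => E i) rfl (by
    intro B hBn
    have h := hB (B.map (Function.Embedding.subtype _)) (by
      intro j hj
      obtain ⟨k, _, rfl⟩ := Finset.mem_map.1 hj
      exact k.2) (by simpa using hBn)
    rw [Finset.card_map] at h
    refine h.trans (Finset.card_le_card ?_)
    intro p hp
    obtain ⟨j, hj, hpj⟩ := Finset.mem_biUnion.1 hp
    obtain ⟨k, hk, rfl⟩ := Finset.mem_map.1 hj
    exact Finset.mem_biUnion.2 ⟨k, hk, hpj⟩)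
  exact ⟨c, fun i hi => hc ⟨i, hi⟩⟩

end lovasz

section graph

variable {V : Type} [Fintype V] (G : SimpleGraph V)

/-- Neighbourhood of a set. -/
noncomputable def nb (A : Finset V) : Finset V := A.biUnion fun v => G.neighborFinset v

theorem mem_nb {A : Finset V} {u : V} : u ∈ nb G A ↔ ∃ a ∈ A, G.Adj a u := by
  simp [nb]

/-- a bad set -/
structure Bad (I : Finset V) : Prop where
  ne : I.Nonempty
  indep : ∀ a ∈ I, ∀ b ∈ I, ¬ G.Adj a b
  card : (nb G I).card = I.card
  cover : ∀ v, v ∈ I ∨ v ∈ nb G I
  deg : ∀ a ∈ I, (G.neighborFinset a).card = 2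
  two : ∀ u ∈ nb G I, (I.filter fun a => G.Adj u a).card = 2

variable {G}

theorem two_of_claw (hcf : ClawFree G) {I : Finset V} (hI : ∀ a ∈ I, ∀ b ∈ I, ¬ G.Adj a b) (u : V) :
    (I.filter fun a => G.Adj u a).card ≤ 2 := by
  by_contra h
  push Not at h
  obtain ⟨x, hx, y, hy, z, hz, hxy, hxz, hyz⟩ := Finset.two_lt_card.1 h
  simp only [Finset.mem_filter] at hx hy hz
  exact hcf ⟨u, x, y, z, hx.2, hy.2, hz.2, hxy, hxz, hyz, hI x hx.1 y hy.1, hI x hx.1 z hz.1,
    hI y hy.1 z hz.1⟩

theorem double_count (I : Finset V) :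
    ∑ a ∈ I, (G.neighborFinset a).card = ∑ u ∈ nb G I, (I.filter fun a => G.Adj u a).card := by
  have := Finset.sum_card_bipartiteAbove_eq_sum_card_bipartiteBelow
    (s := I) (t := nb G I) (fun a u => G.Adj u a)
  simp only [Finset.bipartiteAbove, Finset.bipartiteBelow] at this
  rw [← this]
  apply Finset.sum_congr rfl
  intro a ha
  congr 1
  ext u
  simp only [SimpleGraph.mem_neighborFinset, Finset.mem_filter, mem_nb]
  constructor
  · exact fun h => ⟨⟨a, ha, h⟩, h.symm⟩
  · exact fun h => h.2.symm

theorem indep_card (hcf : ClawFree G) (hdeg : ∀ v, 2 ≤ G.degree v) {I : Finset V}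
    (hI : ∀ a ∈ I, ∀ b ∈ I, ¬ G.Adj a b) : I.card ≤ (nb G I).card := by
  have h1 : 2 * I.card ≤ ∑ a ∈ I, (G.neighborFinset a).card := by
    have : ∑ a ∈ I, 2 ≤ ∑ a ∈ I, (G.neighborFinset a).card :=
      Finset.sum_le_sum fun a _ => by simpa using hdeg a
    simpa [mul_comm] using this
  have h2 : ∑ u ∈ nb G I, (I.filter fun a => G.Adj u a).card ≤ 2 * (nb G I).card := by
    have : ∑ u ∈ nb G I, (I.filter fun a => G.Adj u a).card ≤ ∑ u ∈ nb G I, 2 :=
      Finset.sum_le_sum fun u _ => two_of_claw hcf hI u
    simpa [mul_comm] using this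
  rw [double_count] at h1
  omega

/-- closed sets in connected graphs -/
theorem closed_univ (hc : G.Connected) {A : Finset V} (hne : A.Nonempty)
    (hcl : ∀ a ∈ A, ∀ b, G.Adj a b → b ∈ A) : ∀ v, v ∈ A := by
  obtain ⟨a, ha⟩ := hne
  intro v
  obtain ⟨p⟩ := hc.preconnected a v
  induction p with
  | nil => exact ha
  | cons h p ih => exact ih (hcl _ ha _ h)

theorem bad_of_eq (hcf : ClawFree G) (hdeg : ∀ v, 2 ≤ G.degree v) (hc : G.Connected)
    {I : Finset V} (hne : I.Nonempty) (hI : ∀ a ∈ I, ∀ b ∈ I, ¬ G.Adj a b)
    (hcard : (nb G I).card ≤ I.card) : Bad G I := by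
  have hle := indep_card hcf hdeg hI
  have h1 : ∀ a ∈ I, 2 ≤ (G.neighborFinset a).card := fun a _ => by simpa using hdeg a
  have h2 : ∀ u ∈ nb G I, (I.filter fun a => G.Adj u a).card ≤ 2 := fun u _ =>
    two_of_claw hcf hI u
  have hdc := double_count (G := G) I
  have hs1 : ∑ a ∈ I, 2 ≤ ∑ a ∈ I, (G.neighborFinset a).card := Finset.sum_le_sum h1
  have hs2 : ∑ u ∈ nb G I, (I.filter fun a => G.Adj u a).card ≤ ∑ u ∈ nb G I, 2 :=
    Finset.sum_le_sum h2
  have hs3 : ∑ u ∈ nb G I, 2 ≤ ∑ a ∈ I, 2 := by
    simp only [Finset.sum_const, smul_eq_mul]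
    omega
  have hdegs : ∀ a ∈ I, (G.neighborFinset a).card = 2 := by
    have := (Finset.sum_eq_sum_iff_of_le h1).1 (by omega)
    intro a ha
    exact (this a ha).symm
  have htwo : ∀ u ∈ nb G I, (I.filter fun a => G.Adj u a).card = 2 := by
    have := (Finset.sum_eq_sum_iff_of_le h2).1 (by omega)
    intro a ha
    exact (this a ha)
  refine ⟨hne, hI, by omega, ?_, hdegs, htwo⟩
  have hcl : ∀ v, v ∈ I ∪ nb G I := by
    apply closed_univ hc (hne.mono Finset.subset_union_left)
    intro u hu y huy
    rcases Finset.mem_union.1 hu with hu | hu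
    · exact Finset.mem_union_right _ (mem_nb G |>.2 ⟨u, hu, huy⟩)
    · by_cases hyI : y ∈ I
      · exact Finset.mem_union_left _ hyI
      have h := htwo u hu
      obtain ⟨a, b, hab, hset⟩ := Finset.card_eq_two.1 h
      have ha : a ∈ I.filter fun a => G.Adj u a := by rw [hset]; simp
      have hb : b ∈ I.filter fun a => G.Adj u a := by rw [hset]; simp
      simp only [Finset.mem_filter] at ha hb
      apply Finset.mem_union_right
      rw [mem_nb]
      by_contra hcon
      push Not at hcon
      exact hcf ⟨u, a, b, y, ha.2, hb.2, huy, hab, fun h => hyI (h ▸ ha.1),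
        fun h => hyI (h ▸ hb.1), hI a ha.1 b hb.1, hcon a ha.1, hcon b hb.1⟩
  intro v
  simpa using hcl v

/-- main dichotomy -/
theorem expand_or_bad (hcf : ClawFree G) (hdeg : ∀ v, 2 ≤ G.degree v) (hc : G.Connected)
    {A : Finset V} (hne : A.Nonempty) (hA : A ≠ Finset.univ) :
    A.card + 1 ≤ (nb G A).card ∨ Bad G A := by
  by_cases hlt : A.card + 1 ≤ (nb G A).card
  · exact Or.inl hlt
  right
  set I := A.filter fun a => ∀ b ∈ A, ¬ G.Adj a b with hIdef
  have hIA : I ⊆ A := Finset.filter_subset _ _
  have hI : ∀ a ∈ I, ∀ b ∈ I, ¬ G.Adj a b := by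
    intro a ha b hb
    exact (Finset.mem_filter.1 ha).2 b (hIA hb)
  have hIc := indep_card hcf hdeg hI
  have hdisj : Disjoint (A \ I) (nb G I) := by
    rw [Finset.disjoint_left]
    intro u hu hu2
    obtain ⟨a, ha, hau⟩ := (mem_nb G).1 hu2
    exact (Finset.mem_filter.1 ha).2 u (Finset.mem_sdiff.1 hu).1 hau
  have hsub : (A \ I) ∪ nb G I ⊆ nb G A := by
    intro u hu
    rcases Finset.mem_union.1 hu with hu | hu
    · obtain ⟨huA, huI⟩ := Finset.mem_sdiff.1 hu
      have : ¬ ∀ b ∈ A, ¬ G.Adj u b := fun h => huI (Finset.mem_filter.2 ⟨huA, h⟩)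
      push Not at this
      obtain ⟨b, hb, hub⟩ := this
      exact (mem_nb G).2 ⟨b, hb, hub.symm⟩
    · obtain ⟨a, ha, hau⟩ := (mem_nb G).1 hu
      exact (mem_nb G).2 ⟨a, hIA ha, hau⟩
  have hcardA : (A \ I).card + I.card = A.card := Finset.card_sdiff_add_card_eq_card hIA
  have hcu : ((A \ I) ∪ nb G I).card = (A \ I).card + (nb G I).card :=
    Finset.card_union_of_disjoint hdisj
  have hle := Finset.card_le_card hsub
  have heq : (A \ I) ∪ nb G I = nb G A :=
    Finset.eq_of_subset_of_card_le hsub (by omega)
  by_cases hIne : I.Nonempty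
  · have hbad := bad_of_eq hcf hdeg hc hIne hI (by omega)
    have hAI : A \ I = ∅ := by
      rw [Finset.eq_empty_iff_forall_notMem]
      intro u hu
      rcases hbad.cover u with h | h
      · exact (Finset.mem_sdiff.1 hu).2 h
      · exact (Finset.disjoint_left.1 hdisj hu) h
    have : A = I := by
      apply Finset.Subset.antisymm _ hIA
      rwa [← Finset.sdiff_eq_empty_iff_subset]
    rw [this]
    exact hbad
  · exfalso
    rw [Finset.not_nonempty_iff_eq_empty] at hIne
    have hnbI : nb G I = ∅ := by rw [hIne]; simp [nb]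
    rw [hIne] at heq
    have : nb G (∅ : Finset V) = ∅ := by simp [nb]
    rw [this] at heq
    simp only [Finset.sdiff_empty, Finset.union_empty] at heq
    apply hA
    rw [Finset.eq_univ_iff_forall]
    apply closed_univ hc hne
    intro a ha b hab
    rw [heq]
    exact (mem_nb G).2 ⟨a, ha, hab⟩

/-- colouring with exceptional set `T`. -/
theorem colour (T : Finset V)
    (h : ∀ A : Finset V, A.Nonempty → Disjoint A T → A.card + 1 ≤ (nb G A).card) :
    ∃ c : V → Bool, ∀ v, v ∉ T → ∀ b, ∃ u, G.Adj v u ∧ c u = b := by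
  obtain ⟨c, hc⟩ := lovasz' (Finset.univ \ T) (fun v => G.neighborFinset v) (by
    intro B hB hBn
    refine h B hBn ?_
    rw [Finset.disjoint_left]
    intro x hx hxT
    have := hB hx
    simp [hxT] at this)
  refine ⟨c, fun v hv b => ?_⟩
  obtain ⟨x, hx, y, hy, hxy⟩ := hc v (by simp [hv])
  simp only [SimpleGraph.mem_neighborFinset] at hx hy
  by_cases hb : c x = b
  · exact ⟨x, hx, hb⟩
  · refine ⟨y, hy, ?_⟩
    revert hxy hb
    cases c x <;> cases c y <;> cases b <;> simp

/-- The set of values in the definition of `FTD` is bounded above. -/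
theorem ftd_bdd : BddAbove {r : ℝ | ∃ (k : ℕ) (F : Fin k → Finset V), 0 < k ∧
    (∀ i, TotalDominating G (F i)) ∧ r = (k : ℝ) / (maxMult F : ℝ)} := by
  refine ⟨(Fintype.card V : ℝ), ?_⟩
  rintro r ⟨k, F, hk, hF, rfl⟩
  by_cases hV : Nonempty V
  · obtain ⟨v0⟩ := hV
    have h1 : ∑ v, (Finset.univ.filter fun i => v ∈ F i).card = ∑ i, (F i).card := by
      have := Finset.sum_card_bipartiteAbove_eq_sum_card_bipartiteBelow
        (s := (Finset.univ : Finset V)) (t := (Finset.univ : Finset (Fin k))) (fun v i => v ∈ F i)
      simp only [Finset.bipartiteAbove, Finset.bipartiteBelow] at this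
      rw [this]
      apply Finset.sum_congr rfl
      intro i _
      congr 1
      ext x
      simp
    have h2 : k ≤ ∑ i, (F i).card := by
      have : ∑ i : Fin k, 1 ≤ ∑ i, (F i).card := by
        apply Finset.sum_le_sum
        intro i _
        obtain ⟨u, hu, _⟩ := hF i v0
        exact Finset.card_pos.2 ⟨u, hu⟩
      simpa using this
    have h3 : ∑ v, (Finset.univ.filter fun i => v ∈ F i).card ≤ Fintype.card V * maxMult F := by
      have : ∑ v : V, (Finset.univ.filter fun i => v ∈ F i).card ≤ ∑ v : V, maxMult F := by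
        apply Finset.sum_le_sum
        intro v _
        exact Finset.le_sup (f := fun v => (Finset.univ.filter fun i => v ∈ F i).card)
          (Finset.mem_univ v)
      simpa using this
    have h4 : k ≤ Fintype.card V * maxMult F := by omega
    have h5 : 0 < maxMult F := by
      rcases Nat.eq_zero_or_pos (maxMult F) with h | h
      · rw [h] at h4; omega
      · exact h
    rw [div_le_iff₀ (by exact_mod_cast h5)]
    exact_mod_cast h4
  · have hm : maxMult F = 0 := by
      unfold maxMult
      have : (Finset.univ : Finset V) = ∅ := by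
        rw [Finset.univ_eq_empty_iff]
        exact not_nonempty_iff.1 hV
      rw [this]
      simp
    rw [hm]
    simp

/-- averaging -/
theorem ftd_ge [Nonempty V] {W : Type} [Fintype W] [Nonempty W] (c : W → V → Bool) (T : W → Finset V)
    (hdom : ∀ w b v, ∃ u, G.Adj v u ∧ (c w u = b ∨ u ∈ T w))
    (hT : ∀ w w' u, u ∈ T w → u ∈ T w' → w = w') :
    2 * (Fintype.card W : ℝ) / (Fintype.card W + 1) ≤ FTD G := by
  set k := Fintype.card (W × Bool) with hk
  let e : Fin k ≃ W × Bool := (Fintype.equivFin (W × Bool)).symm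
  let S : W × Bool → Finset V := fun p => Finset.univ.filter fun u => c p.1 u = p.2 ∨ u ∈ T p.1
  have hkW : k = 2 * Fintype.card W := by
    rw [hk, Fintype.card_prod, Fintype.card_bool]; ring
  have hWpos : 0 < Fintype.card W := Fintype.card_pos
  have hmult : ∀ v, (Finset.univ.filter fun i => v ∈ S (e i)).card ≤ Fintype.card W + 1 := by
    intro v
    have h1 : (Finset.univ.filter fun i => v ∈ S (e i)).card
        = (Finset.univ.filter fun p => v ∈ S p).card := by
      apply Finset.card_bij (fun i _ => e i)
      · intro i hi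
        simpa using hi
      · intro i _ j _ h
        exact e.injective h
      · intro p hp
        exact ⟨e.symm p, by simpa using hp, by simp⟩
    rw [h1]
    have h2 : (Finset.univ.filter fun p => v ∈ S p) ⊆
        (Finset.univ.image fun w => (w, c w v)) ∪
        ((Finset.univ.filter fun w => v ∈ T w).image fun w => (w, !(c w v))) := by
      rintro ⟨w, b⟩ hp
      simp only [S, Finset.mem_filter, Finset.mem_univ, true_and] at hp
      simp only [Finset.mem_union, Finset.mem_image, Finset.mem_univ, true_and, Prod.mk.injEq,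
        Finset.mem_filter]
      by_cases hb : c w v = b
      · left
        exact ⟨w, rfl, hb⟩
      · right
        refine ⟨w, ?_, rfl, ?_⟩
        · rcases hp with h | h
          · exact absurd h hb
          · exact h
        · revert hb
          cases c w v <;> cases b <;> simp
    refine (Finset.card_le_card h2).trans ((Finset.card_union_le _ _).trans ?_)
    have h3 : (Finset.univ.image fun w => (w, c w v)).card ≤ Fintype.card W :=
      Finset.card_image_le.trans (by simp)
    have h4 : ((Finset.univ.filter fun w => v ∈ T w).image fun w => (w, !(c w v))).card ≤ 1 := by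
      refine Finset.card_image_le.trans ?_
      rw [Finset.card_le_one]
      intro a ha b hb
      simp only [Finset.mem_filter, Finset.mem_univ, true_and] at ha hb
      exact hT a b v ha hb
    omega
  have hmm : maxMult (fun i => S (e i)) ≤ Fintype.card W + 1 := by
    unfold maxMult
    exact Finset.sup_le fun v _ => hmult v
  have hTD : ∀ i, TotalDominating G (S (e i)) := by
    intro i v
    obtain ⟨u, hu, h⟩ := hdom (e i).1 (e i).2 v
    exact ⟨u, by simp only [S, Finset.mem_filter, Finset.mem_univ, true_and]; exact h, hu⟩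
  have hmpos : 0 < maxMult (fun i => S (e i)) := by
    obtain ⟨w⟩ := (inferInstance : Nonempty W)
    by_contra h0
    have h0 : maxMult (fun i => S (e i)) = 0 := by omega
    obtain ⟨v0⟩ := (inferInstance : Nonempty V)
    obtain ⟨u, hu, _⟩ := hTD ⟨0, by omega⟩ v0
    have := Finset.le_sup (f := fun v => (Finset.univ.filter fun i => v ∈ S (e i)).card)
        (Finset.mem_univ u)
    unfold maxMult at h0
    rw [h0] at this
    have h5 : (Finset.univ.filter fun i => u ∈ S (e i)).card = 0 := by simpa using this
    rw [Finset.card_eq_zero] at h5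
    have h6 : (⟨0, by omega⟩ : Fin k) ∈ Finset.univ.filter fun i => u ∈ S (e i) := by
      simp only [Finset.mem_filter, Finset.mem_univ, true_and]
      exact hu
    rw [h5] at h6
    simp at h6
  have hle : 2 * (Fintype.card W : ℝ) / (Fintype.card W + 1) ≤
      (k : ℝ) / (maxMult (fun i => S (e i)) : ℝ) := by
    have hkR : (k : ℝ) = 2 * (Fintype.card W : ℝ) := by exact_mod_cast hkW
    rw [hkR]
    apply div_le_div_of_nonneg_left (by positivity) (by exact_mod_cast hmpos)
    exact_mod_cast hmm
  refine hle.trans ?_
  apply le_csSup (ftd_bdd (G := G))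
  exact ⟨k, _, by omega, hTD, rfl⟩

theorem no_bad (hcf : ClawFree G) (hdeg : ∀ v, 2 ≤ G.degree v) (hc : G.Connected)
    (hb : ¬ ∃ I, Bad G I) :
    2 * (Fintype.card V : ℝ) / (Fintype.card V + 1) ≤ FTD G := by
  have : Nonempty V := hc.nonempty
  have hexp : ∀ A : Finset V, A.Nonempty → A ≠ Finset.univ → A.card + 1 ≤ (nb G A).card := by
    intro A hA hA2
    rcases expand_or_bad hcf hdeg hc hA hA2 with h | h
    · exact h
    · exact absurd ⟨A, h⟩ hb
  have hnbu : ∀ v : V, ∃ u, G.Adj v u := by
    intro v
    have h := hdeg v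
    have : 0 < G.degree v := by omega
    exact (G.degree_pos_iff_exists_adj v).1 this
  obtain ⟨u, huinj, hu⟩ := (Finset.all_card_le_biUnion_card_iff_exists_injective
    (fun v => G.neighborFinset v)).1 (by
      intro A
      by_cases hA : A.Nonempty
      · by_cases hA2 : A = Finset.univ
        · have : A.biUnion (fun v => G.neighborFinset v) = Finset.univ := by
            rw [Finset.eq_univ_iff_forall]
            intro v
            obtain ⟨w, hw⟩ := hnbu v
            exact Finset.mem_biUnion.2 ⟨w, by rw [hA2]; simp, by simpa using hw.symm⟩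
          rw [this]
          exact Finset.card_le_univ _
        · have := hexp A hA hA2
          unfold nb at this
          omega
      · rw [Finset.not_nonempty_iff_eq_empty] at hA
        rw [hA]; simp)
  have hcol : ∀ w : V, ∃ c : V → Bool, ∀ v, v ∉ ({w} : Finset V) → ∀ b, ∃ u, G.Adj v u ∧ c u = b := by
    intro w
    apply colour
    intro A hA hdis
    refine hexp A hA ?_
    intro h
    rw [h] at hdis
    simp at hdis
  choose c hc' using hcol
  refine ftd_ge (G := G) c (fun w => {u w}) ?_ ?_
  · intro w b v
    by_cases hv : v = w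
    · subst hv
      exact ⟨u v, by simpa using hu v, Or.inr (by simp)⟩
    · obtain ⟨x, hx, hxb⟩ := hc' w v (by simpa using hv) b
      exact ⟨x, hx, Or.inl hxb⟩
  · intro w w' x hx hx'
    simp only [Finset.mem_singleton] at hx hx'
    exact huinj (hx.symm.trans hx')

theorem with_bad (hcf : ClawFree G) (hdeg : ∀ v, 2 ≤ G.degree v) (hc : G.Connected)
    {I : Finset V} (hb : Bad G I) :
    2 * (Fintype.card V : ℝ) / (Fintype.card V + 2) ≤ FTD G := by
  have : Nonempty V := hc.nonempty
  have hdisj : Disjoint I (nb G I) := by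
    rw [Finset.disjoint_left]
    intro a ha ha2
    obtain ⟨b, hb', hba⟩ := (mem_nb G).1 ha2
    exact hb.indep b hb' a ha hba
  have hcardV : Fintype.card V = 2 * I.card := by
    have h1 : I ∪ nb G I = Finset.univ := by
      rw [Finset.eq_univ_iff_forall]
      intro v
      simpa using hb.cover v
    have h2 := Finset.card_union_of_disjoint hdisj
    rw [h1, hb.card, Finset.card_univ] at h2
    omega
  obtain ⟨u, huinj, hu⟩ := (Finset.all_card_le_biUnion_card_iff_exists_injective
    (fun v : I => G.neighborFinset v.1)).1 (by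
      intro A
      have h := indep_card hcf hdeg (I := A.map (Function.Embedding.subtype _)) (by
        intro a ha b hb'
        obtain ⟨a', _, rfl⟩ := Finset.mem_map.1 ha
        obtain ⟨b', _, rfl⟩ := Finset.mem_map.1 hb'
        exact hb.indep _ a'.2 _ b'.2)
      rw [Finset.card_map] at h
      refine h.trans (Finset.card_le_card ?_)
      intro x hx
      obtain ⟨a, ha, hax⟩ := (mem_nb G).1 hx
      obtain ⟨a', ha', rfl⟩ := Finset.mem_map.1 ha
      exact Finset.mem_biUnion.2 ⟨a', ha', by simpa using hax⟩)
  have hadj : ∀ a : I, G.Adj a.1 (u a) := fun a => by simpa using hu a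
  have hcol : ∀ w : I, ∃ c : V → Bool, ∀ v, v ∉ ({w.1, u w} : Finset V) → ∀ b, ∃ u, G.Adj v u ∧ c u = b := by
    intro w
    apply colour
    intro A hA hdis
    rw [Finset.disjoint_left] at hdis
    have hwA : w.1 ∉ A := fun h => hdis h (by simp)
    have huA : u w ∉ A := fun h => hdis h (by simp)
    rcases expand_or_bad hcf hdeg hc hA (by rintro rfl; simp at hwA) with h | h
    · exact h
    · exfalso
      have hw2 : w.1 ∈ nb G A := (h.cover w.1).resolve_left hwA
      have h2 := h.two w.1 hw2
      have h3 := hb.deg w.1 w.2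
      have hsub : (A.filter fun a => G.Adj w.1 a) ⊆ G.neighborFinset w.1 := by
        intro x hx
        simpa using (Finset.mem_filter.1 hx).2
      have heq := Finset.eq_of_subset_of_card_le hsub (by omega)
      have : u w ∈ A.filter fun a => G.Adj w.1 a := by
        rw [heq]; simpa using hadj w
      exact huA (Finset.mem_filter.1 this).1
  choose c hc' using hcol
  have : Nonempty I := hb.ne.to_subtype
  have h := ftd_ge (G := G) c (fun w : I => {w.1, u w}) (by
    intro w b v
    by_cases hv : v = w.1
    · subst hv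
      exact ⟨u w, hadj w, Or.inr (by simp)⟩
    by_cases hv2 : v = u w
    · subst hv2
      exact ⟨w.1, (hadj w).symm, Or.inr (by simp)⟩
    · obtain ⟨x, hx, hxb⟩ := hc' w v (by simp [hv, hv2]) b
      exact ⟨x, hx, Or.inl hxb⟩) (by
    intro w w' x hx hx'
    simp only [Finset.mem_insert, Finset.mem_singleton] at hx hx'
    rcases hx with hx | hx <;> rcases hx' with hx' | hx'
    · exact Subtype.ext (hx.symm.trans hx')
    · exfalso
      have h1 := hadj w'
      rw [← hx', hx] at h1
      exact hb.indep _ w'.2 _ w.2 h1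
    · exfalso
      have h1 := hadj w
      rw [← hx, hx'] at h1
      exact hb.indep _ w.2 _ w'.2 h1
    · exact huinj (hx.symm.trans hx'))
  have hcI : Fintype.card I = I.card := by simp
  rw [hcI] at h
  rw [hcardV]
  refine le_trans (le_of_eq ?_) h
  push_cast
  have hpos : (0 : ℝ) ≤ I.card := by positivity
  rw [div_eq_div_iff (by positivity) (by positivity)]
  ring

/-- The explicit bound. -/
theorem ftd_bound (hcf : ClawFree G) (hdeg : ∀ v, 2 ≤ G.degree v) (hc : G.Connected) :
    2 * (Fintype.card V : ℝ) / (Fintype.card V + 2) ≤ FTD G := by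
  by_cases hb : ∃ I, Bad G I
  · obtain ⟨I, hI⟩ := hb
    exact with_bad hcf hdeg hc hI
  · refine le_trans ?_ (no_bad hcf hdeg hc hb)
    apply div_le_div_of_nonneg_left (by positivity) (by positivity)
    linarith

end graph

/-- Every connected claw-free graph of order `n` with minimum degree at least two has
`FTD ≥ 2 n / (n + 2)`; in particular for every `ε > 0` all such graphs of large order have
`FTD ≥ 2 - ε` (Q1). -/
theorem result :
    (∀ (V : Type) [Fintype V] (G : SimpleGraph V), G.Connected → ClawFree G →
      (∀ v, 2 ≤ G.degree v) →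
      2 * (Fintype.card V : ℝ) / (Fintype.card V + 2) ≤ FTD G) ∧
    (∀ ε : ℝ, 0 < ε → ∃ N : ℕ, ∀ (V : Type) [Fintype V] (G : SimpleGraph V), G.Connected →
      ClawFree G → (∀ v, 2 ≤ G.degree v) → N ≤ Fintype.card V → 2 - ε ≤ FTD G) := by
  refine ⟨fun V _ G hc hcf hdeg => ftd_bound hcf hdeg hc, ?_⟩
  intro ε hε
  obtain ⟨N, hN⟩ := exists_nat_gt (4 / ε)
  refine ⟨N, fun V _ G hc hcf hdeg hV => le_trans ?_ (ftd_bound hcf hdeg hc)⟩
  have h1 : (N : ℝ) ≤ Fintype.card V := by exact_mod_cast hV
  have h2 : 4 / ε < (Fintype.card V : ℝ) := lt_of_lt_of_le hN h1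
  rw [div_lt_iff₀ hε] at h2
  have h3 : (0 : ℝ) ≤ Fintype.card V := by positivity
  rw [le_div_iff₀ (by positivity)]
  nlinarith

end Pool.Agent.Results.MP_7cc102_co.AsymptoticallyTwo
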